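import Pool.Agent.Lib.MP_c3d375_an.Neg.Iface
import Pool.Agent.Lib.MP_c3d375_an.Neg.H99.LowB
import Pool.Agent.Lib.MP_c3d375_an.Lower2

/-!
# TIP: the tip of `W(C₁, C₂)`
-/

open Complex Metric Set Filter Topology ComplexConjugate Pool.Agent.Lib.MP_c3d375_an

namespace C3N.H37

/-- the matrix of the tip -/
noncomputable def Tmat (p k m : ℂ) : Matrix (Fin 2) (Fin 2) ℂ := !![p, -k; k, m]

/-- the operator of the tip -/
noncomputable def TT (p k m : ℂ) : E2 →L[ℂ] E2 := Matrix.toEuclideanCLM (𝕜 := ℂ) (Tmat p k m)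

theorem TT_zero (p k m : ℂ) (x : E2) : (TT p k m x) 0 = p * x 0 - k * x 1 := by
  have := congrFun (Matrix.ofLp_toEuclideanCLM (𝕜 := ℂ) (Tmat p k m) x) 0
  rw [TT, this]
  simp [Tmat, Matrix.mulVec, dotProduct, Fin.sum_univ_two]
  ring

theorem TT_one (p k m : ℂ) (x : E2) : (TT p k m x) 1 = k * x 0 + m * x 1 := by
  have := congrFun (Matrix.ofLp_toEuclideanCLM (𝕜 := ℂ) (Tmat p k m) x) 1
  rw [TT, this]
  simp [Tmat, Matrix.mulVec, dotProduct, Fin.sum_univ_two]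

theorem inner_TT (p m : ℂ) (k : ℝ) (x : E2) : inner ℂ x (TT p k m x) =
    p * ‖x 0‖ ^ 2 + m * ‖x 1‖ ^ 2 + k * (conj (x 1) * x 0 - conj (x 0) * x 1) := by
  rw [PiLp.inner_apply, Fin.sum_univ_two, TT_zero, TT_one]
  have h0 : ((‖x 0‖ : ℝ) : ℂ) ^ 2 = x 0 * conj (x 0) := (Complex.mul_conj' (x 0)).symm
  have h1 : ((‖x 1‖ : ℝ) : ℂ) ^ 2 = x 1 * conj (x 1) := (Complex.mul_conj' (x 1)).symm
  rw [h0, h1]
  simp only [RCLike.inner_apply]
  ring

theorem TT_sq (p k m : ℂ) : TT p k m * TT p k m = (p + m) • TT p k m - (p * m + k ^ 2) • 1 := by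
  ext x i
  have h0 : (TT p k m * TT p k m) x = TT p k m (TT p k m x) := rfl
  have h1 : ((p + m) • TT p k m - (p * m + k ^ 2) • (1 : E2 →L[ℂ] E2)) x =
      (p + m) • TT p k m x - (p * m + k ^ 2) • x := rfl
  rw [h0, h1]
  fin_cases i
  · simp only [Fin.zero_eta, Fin.isValue, PiLp.sub_apply, PiLp.smul_apply, smul_eq_mul, TT_zero,
      TT_one]
    ring
  · simp only [Fin.mk_one, Fin.isValue, PiLp.sub_apply, PiLp.smul_apply, smul_eq_mul, TT_zero,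
      TT_one]
    ring

/-- `(1+u)/(1-u)` -/
theorem cayley_re_pos {u : ℂ} (hu : ‖u‖ < 1) : 0 < ((1 + u) / (1 - u)).re := by
  have h1 : 1 - u ≠ 0 := by
    intro h
    have : u = 1 := by linear_combination -h
    rw [this, norm_one] at hu
    exact lt_irrefl _ hu
  have h2 : 0 < normSq (1 - u) := normSq_pos.2 h1
  have h3 : normSq u < 1 := by
    rw [normSq_eq_norm_sq]
    nlinarith [norm_nonneg u]
  rw [normSq_apply] at h3
  rw [div_re, ← add_div]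
  refine div_pos ?_ h2
  simp only [add_re, one_re, sub_re, add_im, one_im, sub_im]
  nlinarith

/-- the test function -/
noncomputable def Fz (ρ r : ℝ) (z : ℂ) : ℂ :=
  (ρ * Pool.Agent.Lib.MP_c3d375_an.sq ((1 + r * z) / (1 - r * z))) / (1 + 2 * (ρ * Pool.Agent.Lib.MP_c3d375_an.sq ((1 + r * z) / (1 - r * z))) ^ 2)

/-- its real version -/
noncomputable def Fx (ρ r : ℝ) (s : ℝ) : ℝ :=
  ρ * √((1 + r * s) / (1 - r * s)) / (1 + 2 * (ρ * √((1 + r * s) / (1 - r * s))) ^ 2)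

theorem norm_rz {r : ℝ} (hr : 0 < r) {z : ℂ} (hz : ‖z‖ < 1 / r) : ‖(r : ℂ) * z‖ < 1 := by
  rw [norm_mul, Complex.norm_real, Real.norm_eq_abs, abs_of_pos hr]
  rwa [lt_div_iff₀ hr, mul_comm] at hz

theorem q_facts {ρ r : ℝ} (hρ : 0 < ρ) (hr : 0 < r) {z : ℂ} (hz : ‖z‖ < 1 / r) :
    0 < (ρ * Pool.Agent.Lib.MP_c3d375_an.sq ((1 + r * z) / (1 - r * z))).re ∧
    0 < ((ρ * Pool.Agent.Lib.MP_c3d375_an.sq ((1 + r * z) / (1 - r * z))) ^ 2).re := by
  have h1 := cayley_re_pos (norm_rz hr hz)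
  have h2 := sq_re_pos h1
  constructor
  · rw [re_ofReal_mul]
    positivity
  · rw [mul_pow, sq_sq (fun h => by rw [h, zero_re] at h1; exact lt_irrefl _ h1), ← ofReal_pow,
      re_ofReal_mul]
    positivity

theorem den_ne {ρ r : ℝ} (hρ : 0 < ρ) (hr : 0 < r) {z : ℂ} (hz : ‖z‖ < 1 / r) :
    1 + 2 * (ρ * Pool.Agent.Lib.MP_c3d375_an.sq ((1 + r * z) / (1 - r * z))) ^ 2 ≠ 0 := by
  intro h
  have h1 := (q_facts hρ hr hz).2
  have h2 := congrArg Complex.re h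
  rw [add_re, one_re, zero_re, mul_re] at h2
  simp only [re_ofNat, im_ofNat, zero_mul, sub_zero] at h2
  linarith

theorem Fz_diff {ρ r : ℝ} (hρ : 0 < ρ) (hr : 0 < r) :
    DifferentiableOn ℂ (Fz ρ r) (ball 0 (1 / r)) := by
  intro z hz
  have hz' : ‖z‖ < 1 / r := by simpa using hz
  have h1 := cayley_re_pos (norm_rz hr hz')
  have h3 : 1 - (r : ℂ) * z ≠ 0 := by
    intro h
    rw [h, div_zero, zero_re] at h1
    exact lt_irrefl _ h1
  have h2 : DifferentiableAt ℂ (fun z : ℂ => ρ * Pool.Agent.Lib.MP_c3d375_an.sq ((1 + r * z) / (1 - r * z))) z := by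
    refine DifferentiableAt.const_mul ?_ _
    refine DifferentiableAt.comp (g := Pool.Agent.Lib.MP_c3d375_an.sq) z (hasDerivAt_sq h1).differentiableAt ?_
    exact DifferentiableAt.div (by fun_prop) (by fun_prop) h3
  refine DifferentiableAt.differentiableWithinAt ?_
  exact h2.div (((h2.pow 2).const_mul _).const_add _) (den_ne hρ hr hz')

theorem Fz_mem (hC2 : ∀ q : ℂ, 0 ≤ q.re → 0 ≤ (q ^ 2).re → q / (1 + 2 * q ^ 2) ∈ C2) {ρ r : ℝ}
    (hρ : 0 < ρ) (hr : 0 < r) {z : ℂ} (hz : ‖z‖ < 1 / r) : Fz ρ r z ∈ C2 :=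
  hC2 _ (q_facts hρ hr hz).1.le (q_facts hρ hr hz).2.le

theorem Fz_ofReal {ρ r s : ℝ} (hs : |r * s| < 1) : Fz ρ r (s : ℂ) = (Fx ρ r s : ℝ) := by
  have h1 := abs_lt.1 hs
  have h2 : 0 < (1 + r * s) / (1 - r * s) := div_pos (by linarith) (by linarith)
  have h3 : Pool.Agent.Lib.MP_c3d375_an.sq ((1 + (r : ℂ) * s) / (1 - r * s)) = ((√((1 + r * s) / (1 - r * s)) : ℝ) : ℂ) := by
    have h4 := sq_ofReal (Real.sqrt_pos.2 h2)
    rw [Real.sq_sqrt h2.le] at h4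
    rw [← h4]
    push_cast
    rfl
  rw [Fz, Fx, h3]
  push_cast
  rfl

theorem Fx_cont (ρ : ℝ) {s : ℝ} (hs : |s| < 1) : ContinuousAt (fun r : ℝ => Fx ρ r s) 1 := by
  have h1 := abs_lt.1 hs
  have h2 : (1 : ℝ) - 1 * s ≠ 0 := by
    rw [one_mul]; linarith
  have h3 : ContinuousAt (fun r : ℝ => ρ * √((1 + r * s) / (1 - r * s))) 1 := by
    refine ContinuousAt.mul continuousAt_const (ContinuousAt.sqrt ?_)
    exact ContinuousAt.div (by fun_prop) (by fun_prop) h2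
  refine ContinuousAt.div h3 (by fun_prop) ?_
  positivity

theorem tip_st (hGC1 : GC1Statement) (hGIN : GINStatement) (hGC2 : GC2Statement)
    (hTW : TWStatement) (hTA : TAStatement) : TIPStatement := by
  intro a ha1 ha2
  have ha0 : 0 < a := by linarith
  obtain ⟨e1, he1, H1⟩ := hGC1 a (by linarith) ha2
  obtain ⟨e2, he2, H2⟩ := hGIN a (by linarith) ha2
  obtain ⟨e3, he3, H3⟩ := hTW a ha1 ha2
  obtain ⟨e4, he4, H4⟩ := hTA a ha1 ha2
  refine ⟨min (min e1 e2) (min e3 e4), by positivity, fun e he0 he => ?_⟩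
  obtain ⟨hcl, hconv, -, -⟩ := H1 e he0 (he.trans_le ((min_le_left _ _).trans (min_le_left _ _)))
  obtain ⟨g, hg, hg1, hg2, hg3⟩ :=
    H2 e he0 (he.trans_le ((min_le_left _ _).trans (min_le_right _ _)))
  have htw := H3 e he0 (he.trans_le ((min_le_right _ _).trans (min_le_left _ _)))
  obtain ⟨sp, sm, d, hsm, hspm, hsp, hd, hcp, hcm, hdd, hval⟩ :=
    H4 e he0 (he.trans_le ((min_le_right _ _).trans (min_le_right _ _)))
  obtain ⟨-, -, -, -, -, -, hC2⟩ := hGC2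
  have h1a : 0 < 1 - a ^ 2 := by nlinarith
  -- the real numbers
  set tp : ℝ := 1 + (e / a) / (1 - a) with htp
  set tm : ℝ := -1 + (e / a) / (1 + a) with htm
  have hchip : chi a e 1 = (tp : ℂ) := by
    rw [chi, htp]
    push_cast
    ring
  have hchim : chi a e (-1) = (tm : ℂ) := by
    rw [chi, htm]
    push_cast
    ring
  set κ : ℝ := √(1 - a ^ 2) / a with hκ
  have hκ2 : κ ^ 2 = (1 - a ^ 2) / a ^ 2 := by rw [hκ, div_pow, Real.sq_sqrt h1a.le]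
  set A0 : ℝ := (tp - tm) / 2 with hA0
  set μ : ℝ := (tp + tm) / 2 with hμ
  have hdd' : d ^ 2 = A0 ^ 2 - κ ^ 2 := by
    have h : ((d ^ 2 : ℝ) : ℂ) = ((A0 ^ 2 - κ ^ 2 : ℝ) : ℂ) := by
      rw [hκ2]
      push_cast
      rw [hdd, hchip, hchim, hA0]
      push_cast
      ring
    exact_mod_cast h
  have hl1 : chi a e sp = ((μ + d : ℝ) : ℂ) := by
    rw [hcp, hchip, hchim, hμ]; push_cast; ring
  have hl2 : chi a e sm = ((μ - d : ℝ) : ℂ) := by
    rw [hcm, hchip, hchim, hμ]; push_cast; ring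
  have hre : ((chi a e 1 - chi a e (-1)) / 2).re = A0 := by
    rw [hchip, hchim, hA0]
    have : (((tp : ℂ) - tm) / 2) = (((tp - tm) / 2 : ℝ) : ℂ) := by push_cast; ring
    rw [this, ofReal_re]
  simp only [hre] at hval
  set ρ : ℝ := √(e / (16 * (1 - a ^ 2))) with hρ
  have hρ0 : 0 < ρ := Real.sqrt_pos.2 (by positivity)
  set D : ℝ := A0 / d with hD
  have habs_p : |sp| < 1 := abs_lt.2 ⟨by linarith, hsp⟩
  have habs_m : |sm| < 1 := abs_lt.2 ⟨hsm, by linarith⟩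
  -- the value as a function of r
  set Ψ : ℝ → ℝ := fun r => ((1 + D) * Fx ρ r sm - (D - 1) * Fx ρ r sp) / 2 with hΨ
  have hΨc : ContinuousAt Ψ 1 :=
    ((continuousAt_const.mul (Fx_cont ρ habs_m)).sub
      (continuousAt_const.mul (Fx_cont ρ habs_p))).div_const _
  have hΨ1 : Ψ 1 < -(1 / 100 * (1 - a) ^ (-2 : ℝ) * e ^ (3 / 2 : ℝ)) := by
    have h2 : Ψ 1 ≤ -(a / 20 * (1 - a ^ 2) ^ (-2 : ℝ) * e ^ (3 / 2 : ℝ)) := by
      refine le_trans (le_of_eq ?_) hval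
      simp only [hΨ, Fx, one_mul]
    refine h2.trans_lt ?_
    have h1a' : 0 < 1 - a := by linarith
    have h3 : (1 - a ^ 2) ^ (-2 : ℝ) = (1 - a) ^ (-2 : ℝ) * ((1 + a) ^ 2)⁻¹ := by
      have : (1 : ℝ) - a ^ 2 = (1 - a) * (1 + a) := by ring
      rw [this, Real.mul_rpow (by linarith) (by linarith)]
      congr 1
      rw [Real.rpow_neg (by linarith)]
      norm_num
    rw [h3, neg_lt_neg_iff]
    have h4 : 0 < (1 - a) ^ (-2 : ℝ) := Real.rpow_pos_of_pos h1a' _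
    have h5 : 0 < e ^ (3 / 2 : ℝ) := Real.rpow_pos_of_pos he0 _
    have h6 : 1 / 100 < a / 20 * ((1 + a) ^ 2)⁻¹ := by
      rw [← div_eq_mul_inv, lt_div_iff₀ (by positivity)]
      nlinarith
    have h7 : a / 20 * ((1 - a) ^ (-2 : ℝ) * ((1 + a) ^ 2)⁻¹) * e ^ (3 / 2 : ℝ) =
        (a / 20 * ((1 + a) ^ 2)⁻¹) * (1 - a) ^ (-2 : ℝ) * e ^ (3 / 2 : ℝ) := by ring
    rw [h7]
    gcongr
  have hev : ∀ᶠ r in 𝓝[<] (1 : ℝ), Ψ r < -(1 / 100 * (1 - a) ^ (-2 : ℝ) * e ^ (3 / 2 : ℝ)) :=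
    (hΨc.tendsto.mono_left nhdsWithin_le_nhds).eventually (gt_mem_nhds hΨ1)
  have hev2 : ∀ᶠ r in 𝓝[<] (1 : ℝ), r < 1 := self_mem_nhdsWithin
  have hev3 : ∀ᶠ r in 𝓝[<] (1 : ℝ), 0 < r := nhdsWithin_le_nhds (lt_mem_nhds one_pos)
  obtain ⟨r, hr1, hr2, hr3⟩ := (hev.and (hev2.and hev3)).exists
  have hr4 : 1 < 1 / r := by rw [lt_div_iff₀ hr3]; linarith
  -- the function
  set f : ℂ → ℂ := fun w => Fz ρ r (g w) with hf
  set V : Set ℂ := {w : ℂ | w.re < 1 / a} ∩ g ⁻¹' (ball 0 (1 / r)) with hV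
  have hVo : IsOpen V := by
    refine hg.continuousOn.isOpen_inter_preimage ?_ isOpen_ball
    exact isOpen_lt Complex.continuous_re continuous_const
  have hgchi : ∀ z : ℂ, ‖z‖ ≤ 1 → g (chi a e z) = z := by
    intro z hz
    refine hg2 z ?_ (hg3 z hz)
    have h1 : z.re ≤ 1 := (Complex.re_le_norm z).trans hz
    have h2 : 1 < 1 / a := by rw [lt_div_iff₀ ha0]; linarith
    linarith
  have hsub : C1 a e ⊆ V := by
    rintro _ ⟨z, hz, rfl⟩
    have hz' : ‖z‖ ≤ 1 := by simpa using hz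
    refine ⟨hg3 z hz', ?_⟩
    rw [mem_preimage, hgchi z hz', mem_ball, dist_zero_right]
    linarith
  have hfd : DifferentiableOn ℂ f V := by
    refine DifferentiableOn.comp (Fz_diff hρ0 hr3) (hg.mono inter_subset_left) ?_
    exact fun w hw => hw.2
  have hfC : f '' C1 a e ⊆ C2 := by
    rintro _ ⟨_, ⟨z, hz, rfl⟩, rfl⟩
    have hz' : ‖z‖ ≤ 1 := by simpa using hz
    simp only [hf, hgchi z hz']
    exact Fz_mem hC2 hρ0 hr3 (by linarith)
  have hcomp : IsCompact (C1 a e) := by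
    refine (isCompact_closedBall (0 : ℂ) 1).image_of_continuousOn ?_
    intro z hz
    have hz' : ‖z‖ ≤ 1 := by simpa using hz
    have h1 : 1 - (a : ℂ) * z ≠ 0 := by
      intro h
      have h2 : (a : ℂ) * z = 1 := by linear_combination -h
      have h3 := congrArg norm h2
      rw [norm_mul, Complex.norm_real, Real.norm_eq_abs, abs_of_pos ha0, norm_one] at h3
      nlinarith
    refine ContinuousAt.continuousWithinAt ?_
    unfold chi
    exact ContinuousAt.add continuousAt_id (ContinuousAt.div (by fun_prop) (by fun_prop) h1)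
  have hT : ∀ x : E2, ‖x‖ = 1 → inner ℂ x (TT tm κ tp x) ∈ C1 a e := by
    intro x hx
    rw [inner_TT, ← hchip, ← hchim]
    apply htw
    rw [← norm_sq_E2, hx, one_pow]
  have hT2 : TT tm κ tp * TT tm κ tp = (((μ + d : ℝ) : ℂ) + ((μ - d : ℝ) : ℂ)) • TT tm κ tp -
      (((μ + d : ℝ) : ℂ) * ((μ - d : ℝ) : ℂ)) • 1 := by
    rw [TT_sq]
    have h1 : ((μ + d : ℝ) : ℂ) + ((μ - d : ℝ) : ℂ) = (tm : ℂ) + tp := by
      rw [hμ]; push_cast; ring
    have h2 : ((μ + d : ℝ) : ℂ) * ((μ - d : ℝ) : ℂ) = (tm : ℂ) * tp + (κ : ℂ) ^ 2 := by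
      have : (μ + d) * (μ - d) = tm * tp + κ ^ 2 := by
        have : (μ + d) * (μ - d) = μ ^ 2 - d ^ 2 := by ring
        rw [this, hdd', hμ, hA0]
        ring
      exact_mod_cast this
    rw [h1, h2]
  have hl1m : ((μ + d : ℝ) : ℂ) ∈ C1 a e := by
    rw [← hl1]
    refine ⟨sp, ?_, rfl⟩
    rw [mem_closedBall, dist_zero_right, Complex.norm_real, Real.norm_eq_abs]
    exact habs_p.le
  have hl2m : ((μ - d : ℝ) : ℂ) ∈ C1 a e := by
    rw [← hl2]
    refine ⟨sm, ?_, rfl⟩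
    rw [mem_closedBall, dist_zero_right, Complex.norm_real, Real.norm_eq_abs]
    exact habs_m.le
  have hne : ((μ + d : ℝ) : ℂ) ≠ ((μ - d : ℝ) : ℂ) := by
    intro h
    have : μ + d = μ - d := by exact_mod_cast h
    linarith
  set x0 : E2 := EuclideanSpace.single 0 1 with hx0
  have hx0n : ‖x0‖ = 1 := by simp [hx0]
  have hin : inner ℂ x0 (TT tm κ tp x0) = (tm : ℂ) := by
    rw [inner_TT]
    simp [hx0]
  have hmem := Pool.Agent.Lib.MP_c3d375_an.Neg.H99.two_mem_W hcomp hconv (TT tm κ tp) hT hT2 hne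
    hl1m hl2m hVo hsub hfd hfC hx0n
  rw [hin] at hmem
  have hf1 : f ((μ + d : ℝ) : ℂ) = ((Fx ρ r sp : ℝ) : ℂ) := by
    rw [← hl1, hf]
    simp only
    rw [hgchi _ (by rw [Complex.norm_real, Real.norm_eq_abs]; exact habs_p.le), Fz_ofReal]
    rw [abs_mul, abs_of_pos hr3]
    nlinarith [abs_nonneg sp]
  have hf2 : f ((μ - d : ℝ) : ℂ) = ((Fx ρ r sm : ℝ) : ℂ) := by
    rw [← hl2, hf]
    simp only
    rw [hgchi _ (by rw [Complex.norm_real, Real.norm_eq_abs]; exact habs_m.le), Fz_ofReal]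
    rw [abs_mul, abs_of_pos hr3]
    nlinarith [abs_nonneg sm]
  have hw : ((f ((μ + d : ℝ) : ℂ) - f ((μ - d : ℝ) : ℂ)) * (tm : ℂ) +
      (((μ + d : ℝ) : ℂ) * f ((μ - d : ℝ) : ℂ) - ((μ - d : ℝ) : ℂ) * f ((μ + d : ℝ) : ℂ))) /
      (((μ + d : ℝ) : ℂ) - ((μ - d : ℝ) : ℂ)) = ((Ψ r : ℝ) : ℂ) := by
    rw [hf1, hf2]
    have h1 : ((Fx ρ r sp - Fx ρ r sm) * tm + ((μ + d) * Fx ρ r sm - (μ - d) * Fx ρ r sp)) /
        ((μ + d) - (μ - d)) = Ψ r := by
      have h2 : tm = μ - A0 := by rw [hμ, hA0]; ring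
      simp only [hΨ, hD]
      rw [h2]
      have hd' : d ≠ 0 := hd.ne'
      have h3 : (μ + d) - (μ - d) = 2 * d := by ring
      rw [h3]
      field_simp
      ring
    rw [← h1]
    push_cast
    ring
  rw [hw] at hmem
  exact ⟨_, hmem, ofReal_im _, by rw [ofReal_re]; exact hr1.le⟩

end C3N.H37
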